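import Mathlib

/-!
# The cyclovariety `C_k` meets the unit torus for every `k`

Full (affirmative) answer of Q1 of MP_086516_nt.

For `k` with largest prime factor `p` odd, write the radical of `k` as `m * p`. The additive map
`X ^ i ↦ i c_m(i) mod p`, with `c_m(i)` the Ramanujan sum, kills the multiples of
`Φ_{mp} ≡ Φ_m ^ (p - 1) mod p`; composed with a character of `ℤ/p` it gives a zero of `F_k` on the
unit torus, and `|F_k|` then takes the value `1` by connectedness.
-/

open Polynomial

namespace Pool.Agent.Results.MP_086516_nt.UnitTorus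

section charp
variable {K : Type*} [Field K] [IsAlgClosed K]

/-- power sums of primitive roots -/
noncomputable def S (K : Type*) [Field K] (m n : ℕ) : K := ∑ ξ ∈ primitiveRoots m K, ξ ^ n

lemma exists_prim (m : ℕ) (hm : (m : K) ≠ 0) : ∃ ζ : K, IsPrimitiveRoot ζ m := by
  have : NeZero (m : K) := ⟨hm⟩
  exact HasEnoughRootsOfUnity.exists_primitiveRoot K m

lemma S_mul {m q : ℕ} (hc : Nat.Coprime m q) (hm : (m : K) ≠ 0) (hq : (q : K) ≠ 0) (n : ℕ) :
    S K (m * q) n = S K m n * S K q n := by
  have hm0 : m ≠ 0 := by rintro rfl; simp at hm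
  have hq0 : q ≠ 0 := by rintro rfl; simp at hq
  obtain ⟨ζ, hζ⟩ := exists_prim m hm
  obtain ⟨η, hη⟩ := exists_prim q hq
  obtain ⟨ω, hω⟩ := exists_prim (K := K) (m * q) (by rw [Nat.cast_mul]; exact mul_ne_zero hm hq)
  classical
  unfold S
  rw [Finset.sum_mul_sum, ← Finset.sum_product']
  symm
  have hinj : Set.InjOn (fun x : K × K => x.1 * x.2)
      (primitiveRoots m K ×ˢ primitiveRoots q K : Finset (K × K)) := by
    rintro ⟨a, b⟩ hab ⟨a', b'⟩ hab' h
    simp only [Finset.coe_product, Set.mem_prod, Finset.mem_coe,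
      mem_primitiveRoots (Nat.pos_of_ne_zero hm0), mem_primitiveRoots (Nat.pos_of_ne_zero hq0)]
      at hab hab' h
    have ha0 := hab.1.ne_zero hm0
    have ha0' := hab'.1.ne_zero hm0
    have hb0 := hab.2.ne_zero hq0
    have hb0' := hab'.2.ne_zero hq0
    have h1 : a / a' = b' / b := by
      rw [div_eq_div_iff ha0' hb0, h, mul_comm]
    have h2 : (a / a') ^ m = 1 := by rw [div_pow, hab.1.pow_eq_one, hab'.1.pow_eq_one, div_one]
    have h3 : (a / a') ^ q = 1 := by
      rw [h1, div_pow, hab.2.pow_eq_one, hab'.2.pow_eq_one, div_one]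
    have h4 : a / a' = 1 := by
      have h5 : orderOf (a / a') ∣ Nat.gcd m q :=
        Nat.dvd_gcd (orderOf_dvd_of_pow_eq_one h2) (orderOf_dvd_of_pow_eq_one h3)
      rw [hc, Nat.dvd_one] at h5
      exact orderOf_eq_one_iff.1 h5
    have h5 : a = a' := by rwa [div_eq_one_iff_eq ha0'] at h4
    subst h5
    have h6 : b = b' := mul_left_cancel₀ ha0 h
    rw [h6]
  have himg : (primitiveRoots m K ×ˢ primitiveRoots q K).image (fun x : K × K => x.1 * x.2) =
      primitiveRoots (m * q) K := by
    refine Finset.eq_of_subset_of_card_le ?_ ?_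
    · intro x hx
      obtain ⟨⟨a, b⟩, hab, rfl⟩ := Finset.mem_image.1 hx
      rw [Finset.mem_product, mem_primitiveRoots (Nat.pos_of_ne_zero hm0),
        mem_primitiveRoots (Nat.pos_of_ne_zero hq0)] at hab
      rw [mem_primitiveRoots (by positivity)]
      have h := (Commute.all a b).orderOf_mul_eq_mul_orderOf_of_coprime
        (by rw [← hab.1.eq_orderOf, ← hab.2.eq_orderOf]; exact hc)
      rw [← hab.1.eq_orderOf, ← hab.2.eq_orderOf] at h
      rw [← h]
      exact IsPrimitiveRoot.orderOf (a * b)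
    · rw [Finset.card_image_of_injOn hinj, Finset.card_product, hω.card_primitiveRoots,
        hζ.card_primitiveRoots, hη.card_primitiveRoots, Nat.totient_mul hc]
  rw [← himg, Finset.sum_image hinj]
  refine Finset.sum_congr rfl fun x _ => ?_
  rw [mul_pow]

lemma S_prime {q : ℕ} (hq : q.Prime) (hq0 : (q : K) ≠ 0) (n : ℕ) :
    S K q n = if q ∣ n then (q : K) - 1 else -1 := by
  obtain ⟨ζ, hζ⟩ := exists_prim q hq0
  have : NeZero q := ⟨hq.ne_zero⟩
  classical
  have hu : primitiveRoots q K = (Finset.Ico 1 q).image (fun i => ζ ^ i) := by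
    ext x
    rw [mem_primitiveRoots hq.pos, hζ.isPrimitiveRoot_iff, Finset.mem_image]
    constructor
    · rintro ⟨i, hi, hc, rfl⟩
      refine ⟨i, Finset.mem_Ico.2 ⟨?_, hi⟩, rfl⟩
      rcases Nat.eq_zero_or_pos i with h | h
      · subst h
        rw [Nat.coprime_zero_left] at hc
        exact absurd hc hq.one_lt.ne'
      · exact h
    · rintro ⟨i, hi, rfl⟩
      rw [Finset.mem_Ico] at hi
      refine ⟨i, hi.2, ?_, rfl⟩
      exact (hq.coprime_iff_not_dvd.2 (Nat.not_dvd_of_pos_of_lt (by omega) hi.2)).symm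
  have hinj : Set.InjOn (fun i => ζ ^ i) (Finset.Ico 1 q : Finset ℕ) := by
    intro i hi j hj h
    rw [Finset.coe_Ico] at hi hj
    exact hζ.pow_inj hi.2 hj.2 h
  unfold S
  rw [hu, Finset.sum_image hinj]
  split_ifs with hd
  · obtain ⟨t, rfl⟩ := hd
    rw [Finset.sum_congr rfl (g := fun _ => (1 : K))]
    · rw [Finset.sum_const, Nat.card_Ico, nsmul_eq_mul, mul_one, Nat.cast_sub hq.one_lt.le]
      simp
    · intro i _
      rw [← pow_mul, show i * (q * t) = q * (i * t) by ring, pow_mul, hζ.pow_eq_one, one_pow]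
  · have h1 : IsPrimitiveRoot (ζ ^ n) q :=
      hζ.pow_of_coprime n (((Nat.Prime.coprime_iff_not_dvd hq).2 hd).symm)
    have h2 := h1.geom_sum_eq_zero hq.one_lt
    rw [Finset.range_eq_Ico, Finset.sum_eq_sum_Ico_succ_bot hq.pos] at h2
    rw [pow_zero] at h2
    have h3 : ∑ x ∈ Finset.Ico 1 q, (ζ ^ x) ^ n = ∑ k ∈ Finset.Ico (0 + 1) q, (ζ ^ n) ^ k := by
      refine Finset.sum_congr rfl fun i _ => ?_
      rw [← pow_mul, ← pow_mul, mul_comm]
    rw [h3]
    linear_combination h2

omit [IsAlgClosed K] in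
lemma S_one (n : ℕ) : S K 1 n = 1 := by
  have h : primitiveRoots 1 K = {1} := by
    ext x
    rw [mem_primitiveRoots one_pos, IsPrimitiveRoot.one_right_iff, Finset.mem_singleton]
  unfold S
  rw [h]
  simp

/-- The Ramanujan-type sum is the image of an integer prime to `p`, if all primes dividing the
squarefree number `m` are smaller than `p`. -/
lemma S_ne {p : ℕ} (hp : p.Prime) [CharP K p] {m : ℕ} (hm : Squarefree m)
    (hlt : ∀ q : ℕ, q.Prime → q ∣ m → q < p) (n : ℕ) :
    ∃ c : ℤ, (c : K) = S K m n ∧ ¬ (p : ℤ) ∣ c := by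
  induction m using Nat.recOnPrimeCoprime with
  | zero => exact absurd hm not_squarefree_zero
  | prime_pow q e hq =>
    rcases Nat.lt_or_ge 1 e with h | h
    · exfalso
      have := (Nat.squarefree_pow_iff hq.one_lt.ne' (by omega)).1 hm
      omega
    · interval_cases e
      · rw [pow_zero, S_one]
        refine ⟨1, by simp, ?_⟩
        intro h
        have := Int.le_of_dvd one_pos h
        have := hp.two_le
        omega
      · rw [pow_one]
        have hqp : q < p := hlt q hq (by simp)
        have hq0 : (q : K) ≠ 0 := by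
          intro h
          rw [CharP.cast_eq_zero_iff K p] at h
          exact absurd (Nat.le_of_dvd hq.pos h) (by omega)
        rw [S_prime hq hq0]
        have h2 := hq.two_le
        split_ifs with h
        · refine ⟨(q : ℤ) - 1, by push_cast; ring, ?_⟩
          intro h
          have := Int.le_of_dvd (by omega) h
          omega
        · refine ⟨-1, by push_cast; ring, ?_⟩
          intro h
          have := Int.le_of_dvd one_pos ((Int.dvd_neg).1 h)
          omega
  | coprime a b ha hb hc iha ihb =>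
    have ha2 : Squarefree a := hm.squarefree_of_dvd (Dvd.intro _ rfl)
    have hb2 : Squarefree b := hm.squarefree_of_dvd (Dvd.intro_left _ rfl)
    have hnz : ∀ t : ℕ, t ≠ 0 → t ∣ a * b → (t : K) ≠ 0 := by
      intro t ht htd h
      rw [CharP.cast_eq_zero_iff K p] at h
      have := hlt p hp (h.trans htd)
      omega
    obtain ⟨c, hc1, hc2⟩ := iha ha2 (fun q hq hd => hlt q hq (hd.trans (Dvd.intro _ rfl)))
    obtain ⟨d, hd1, hd2⟩ := ihb hb2 (fun q hq hd => hlt q hq (hd.trans (Dvd.intro_left _ rfl)))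
    refine ⟨c * d, ?_, ?_⟩
    · rw [S_mul hc (hnz a (by omega) (Dvd.intro _ rfl)) (hnz b (by omega) (Dvd.intro_left _ rfl)),
        ← hc1, ← hd1]
      push_cast; ring
    · intro h
      rcases (Nat.prime_iff_prime_int.1 hp).dvd_or_dvd h with h | h
      · exact hc2 h
      · exact hd2 h

end charp

/-- There is an additive map from `ℤ[X]` to some `ℤ/N` killing the multiples of `Φ_k` whose
composition with the standard character sums to zero over `1, X, …, X^(k-1)`. -/
def Good (k : ℕ) : Prop :=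
  ∃ (N : ℕ) (_ : NeZero N) (L : ℤ[X] →+ ZMod N), (∀ g : ℤ[X], L (g * cyclotomic k ℤ) = 0) ∧
    ∑ i ∈ Finset.range k, ZMod.stdAddChar (L (X ^ i)) = (0 : ℂ)

lemma sum_range_mul' {M : Type*} [AddCommMonoid M] (f : ℕ → M) (m p : ℕ) :
    ∑ i ∈ Finset.range (m * p), f i = ∑ s ∈ Finset.range p, ∑ r ∈ Finset.range m, f (m * s + r) := by
  induction p with
  | zero => simp
  | succ p ih => rw [Nat.mul_succ, Finset.sum_range_add, ih, Finset.sum_range_succ]

/-- A linear map is determined by its values at powers of `X`. -/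
noncomputable def mk {N : ℕ} (s : ℕ → ZMod N) : ℤ[X] →+ ZMod N :=
  (Polynomial.lsum (R := ℤ) (fun i => (LinearMap.toSpanSingleton ℤ (ZMod N) (s i)))).toAddMonoidHom

lemma mk_monomial {N : ℕ} (s : ℕ → ZMod N) (i : ℕ) (a : ℤ) : mk s (monomial i a) = a • s i := by
  unfold mk
  simp [Polynomial.lsum]

lemma mk_X {N : ℕ} (s : ℕ → ZMod N) (i : ℕ) : mk s (X ^ i) = s i := by
  rw [X_pow_eq_monomial, mk_monomial, one_smul]

lemma hom_ext {N : ℕ} (L : ℤ[X] →+ ZMod N) (f : ℤ[X]) :
    L f = ∑ i ∈ f.support, f.coeff i • L (X ^ i) := by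
  conv_lhs => rw [f.as_sum_support]
  rw [map_sum]
  refine Finset.sum_congr rfl fun i _ => ?_
  rw [← map_zsmul, X_pow_eq_monomial, smul_monomial, smul_eq_mul, mul_one]

lemma good_mul {n p : ℕ} (hp : p.Prime) (hpn : p ∣ n) (h : Good n) : Good (n * p) := by
  obtain ⟨N, hN, L, hL, hsum⟩ := h
  refine ⟨N, hN, mk (fun i => L (X ^ (i / p))), ?_, ?_⟩
  · intro g
    rw [← cyclotomic_expand_eq_cyclotomic hp hpn ℤ]
    induction g using Polynomial.induction_on' with
    | add f g hf hg => rw [add_mul, map_add, hf, hg, add_zero]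
    | monomial i a =>
      have h2 : ∀ f : ℤ[X], mk (fun i => L (X ^ (i / p))) (monomial i a * expand ℤ p f) =
          a • L (X ^ (i / p) * f) := by
        intro f
        induction f using Polynomial.induction_on' with
        | add f g hf hg => rw [map_add, mul_add, map_add, hf, hg, mul_add, map_add, smul_add]
        | monomial j b =>
          rw [expand_monomial, monomial_mul_monomial, mk_monomial]
          rw [X_pow_eq_monomial, X_pow_eq_monomial, monomial_mul_monomial, one_mul]
          have h3 : (i + j * p) / p = i / p + j := Nat.add_mul_div_right i j hp.pos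
          rw [h3, ← map_zsmul L, ← map_zsmul L a]
          congr 1
          rw [smul_monomial, smul_monomial]
          simp
      rw [h2, hL, smul_zero]
  · rw [mul_comm n p, sum_range_mul']
    simp only [mk_X]
    have h2 : ∀ s ∈ Finset.range n, ∑ r ∈ Finset.range p,
        (ZMod.stdAddChar (L (X ^ ((p * s + r) / p))) : ℂ) =
        p * ZMod.stdAddChar (L (X ^ s)) := by
      intro s _
      rw [Finset.sum_congr rfl (g := fun _ => (ZMod.stdAddChar (L (X ^ s)) : ℂ))]
      · rw [Finset.sum_const, Finset.card_range, nsmul_eq_mul]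
      · intro r hr
        rw [Nat.mul_add_div hp.pos, Nat.div_eq_of_lt (Finset.mem_range.1 hr), add_zero]
    rw [Finset.sum_congr rfl h2, ← Finset.mul_sum, hsum, mul_zero]

lemma good_two : Good 2 := by
  refine ⟨4, ⟨by norm_num⟩, mk (fun i => (-1) ^ i), ?_, ?_⟩
  · intro g
    rw [cyclotomic_two]
    induction g using Polynomial.induction_on' with
    | add f g hf hg => rw [add_mul, map_add, hf, hg, add_zero]
    | monomial i a =>
      rw [mul_add, mul_one, ← monomial_one_one_eq_X, monomial_mul_monomial, mul_one, map_add,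
        mk_monomial, mk_monomial, pow_succ]
      simp
  · simp only [mk_X, Finset.sum_range_succ, Finset.sum_range_zero, pow_zero, pow_one, zero_add]
    have h1 := ZMod.stdAddChar_coe (N := 4) 1
    have h2 := ZMod.stdAddChar_coe (N := 4) (-1)
    push_cast at h1 h2
    rw [h1, h2]
    rw [show (2 * (Real.pi : ℂ) * Complex.I * 1 / 4) = Real.pi / 2 * Complex.I by ring,
      show (2 * (Real.pi : ℂ) * Complex.I * -1 / 4) = -(Real.pi / 2 * Complex.I) by ring,
      Complex.exp_neg, Complex.exp_pi_div_two_mul_I]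
    simp

lemma good_prime {m p : ℕ} (hp : p.Prime) (hp2 : 2 < p) (hm : Squarefree m)
    (hlt : ∀ q : ℕ, q.Prime → q ∣ m → q < p) : Good (m * p) := by
  have : Fact p.Prime := ⟨hp⟩
  have : NeZero p := ⟨hp.ne_zero⟩
  have hm0 : 0 < m := Nat.pos_of_ne_zero hm.ne_zero
  have hpm : ¬ p ∣ m := fun h => absurd (hlt p hp h) (lt_irrefl p)
  set K := AlgebraicClosure (ZMod p) with hK
  have : CharP K p := inferInstance
  choose c hc using fun n => S_ne (K := K) hp hm hlt n
  have hper : ∀ n, (c (n + m) : ZMod p) = (c n : ZMod p) := by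
    intro n
    apply (algebraMap (ZMod p) K).injective
    rw [map_intCast, map_intCast, (hc _).1, (hc _).1]
    unfold S
    refine Finset.sum_congr rfl fun ξ hξ => ?_
    rw [mem_primitiveRoots hm0] at hξ
    rw [pow_add, hξ.pow_eq_one, mul_one]
  have hperq : ∀ n s, (c (m * s + n) : ZMod p) = (c n : ZMod p) := by
    intro n s
    induction s with
    | zero => rw [mul_zero, zero_add]
    | succ s ih => rw [show m * (s + 1) + n = (m * s + n) + m by ring, hper, ih]
  have hcne : ∀ n, (c n : ZMod p) ≠ 0 := by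
    intro n h
    rw [ZMod.intCast_zmod_eq_zero_iff_dvd] at h
    exact (hc n).2 h
  refine ⟨p, ⟨hp.ne_zero⟩, mk (fun i => (i : ZMod p) * (c i : ZMod p)), ?_, ?_⟩
  · -- in K the map is `f ↦ ∑ ξ f'(ξ)`
    have key : ∀ f : ℤ[X], algebraMap (ZMod p) K (mk (fun i => (i : ZMod p) * (c i : ZMod p)) f) =
        ∑ ξ ∈ primitiveRoots m K, ξ * (derivative (f.map (Int.castRingHom K))).eval ξ := by
      intro f
      induction f using Polynomial.induction_on' with
      | add f g hf hg =>
        rw [map_add, map_add, hf, hg, Polynomial.map_add, derivative_add, ← Finset.sum_add_distrib]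
        refine Finset.sum_congr rfl fun ξ _ => ?_
        rw [eval_add, mul_add]
      | monomial i a =>
        rw [mk_monomial, zsmul_eq_mul, map_mul, map_mul, map_intCast, map_natCast, map_intCast,
          (hc i).1]
        unfold S
        rw [Finset.mul_sum, Finset.mul_sum]
        refine Finset.sum_congr rfl fun ξ _ => ?_
        rw [map_monomial, derivative_monomial, eval_monomial]
        rcases Nat.eq_zero_or_pos i with h | h
        · subst h; simp
        · have : ξ ^ i = ξ ^ (i - 1) * ξ := by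
            rw [← pow_succ, Nat.sub_add_cancel h]
          rw [this]
          simp
          ring
    intro g
    apply (algebraMap (ZMod p) K).injective
    rw [key, map_zero]
    refine Finset.sum_eq_zero fun ξ hξ => ?_
    rw [mem_primitiveRoots hm0] at hξ
    rw [Polynomial.map_mul, map_cyclotomic, cyclotomic_mul_prime_eq_pow_of_not_dvd K hpm]
    have : NeZero (m : K) := ⟨by
      intro h
      rw [CharP.cast_eq_zero_iff K p] at h
      exact hpm h⟩
    have hroot : (cyclotomic m K).eval ξ = 0 := (isRoot_cyclotomic_iff.2 hξ)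
    rw [derivative_mul, derivative_pow, eval_add, eval_mul, eval_mul, eval_pow, eval_mul,
      eval_mul, eval_pow, hroot, zero_pow (by omega), zero_pow (by omega)]
    ring
  · rw [sum_range_mul', Finset.sum_comm]
    refine Finset.sum_eq_zero fun r _ => ?_
    simp only [mk_X]
    have h1 : ∀ s, (ZMod.stdAddChar (((m * s + r : ℕ) : ZMod p) * (c (m * s + r) : ZMod p)) : ℂ) =
        ZMod.stdAddChar ((r : ZMod p) * (c r : ZMod p)) *
          (ZMod.stdAddChar ((m : ZMod p) * (c r : ZMod p))) ^ s := by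
      intro s
      rw [hperq, ← AddChar.map_nsmul_eq_pow, ← AddChar.map_add_eq_mul]
      congr 1
      rw [nsmul_eq_mul]
      push_cast
      ring
    simp only [h1]
    rw [← Finset.mul_sum]
    have hx : (ZMod.stdAddChar ((m : ZMod p) * (c r : ZMod p)) : ℂ) ≠ 1 := by
      intro h
      rw [← (ZMod.stdAddChar (N := p)).map_zero_eq_one, ZMod.injective_stdAddChar.eq_iff] at h
      rcases mul_eq_zero.1 h with h | h
      · rw [ZMod.natCast_eq_zero_iff] at h
        exact hpm h
      · exact hcne r h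
    have hxp : (ZMod.stdAddChar ((m : ZMod p) * (c r : ZMod p)) : ℂ) ^ p = 1 := by
      rw [← AddChar.map_nsmul_eq_pow, nsmul_eq_mul, CharP.cast_eq_zero, zero_mul,
        AddChar.map_zero_eq_one]
    rw [geom_sum_eq hx, hxp, sub_self, zero_div, mul_zero]

lemma good_all (k : ℕ) (hk : 2 ≤ k) : Good k := by
  induction k using Nat.strong_induction_on with
  | _ k ih =>
    by_cases hsq : Squarefree k
    · -- largest prime factor
      have hne : k.primeFactors.Nonempty := Nat.nonempty_primeFactors.2 (by omega)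
      set p := k.primeFactors.max' hne with hp
      have hpm := Finset.max'_mem _ hne
      rw [← hp, Nat.mem_primeFactors] at hpm
      obtain ⟨hpp, hpk, _⟩ := hpm
      obtain ⟨m, hm⟩ := hpk
      rw [mul_comm] at hm
      have hm2 : Squarefree m := hsq.squarefree_of_dvd (Dvd.intro _ hm.symm)
      have hlt : ∀ q : ℕ, q.Prime → q ∣ m → q < p := by
        intro q hq hqm
        have h1 : q ∈ k.primeFactors := by
          rw [Nat.mem_primeFactors]
          exact ⟨hq, hqm.trans (Dvd.intro _ hm.symm), by omega⟩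
        have h2 : q ≤ p := Finset.le_max' _ _ h1
        refine lt_of_le_of_ne h2 fun h3 => ?_
        rw [h3] at hqm
        obtain ⟨t, rfl⟩ := hqm
        have := hsq p ⟨t, by rw [hm]; ring⟩
        exact hpp.one_lt.ne' (Nat.isUnit_iff.1 this)
      rcases Nat.lt_or_ge 2 p with h | h
      · rw [hm]
        exact good_prime hpp h hm2 hlt
      · have hp2 : p = 2 := le_antisymm h hpp.two_le
        have hm1 : m = 1 := by
          by_contra hm1
          obtain ⟨q, hq, hqm⟩ := Nat.exists_prime_and_dvd hm1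
          have := hlt q hq hqm
          have := hq.two_le
          omega
        rw [hm, hm1, hp2]
        exact good_two
    · rw [Nat.squarefree_iff_prime_squarefree] at hsq
      push Not at hsq
      obtain ⟨p, hp, t, ht⟩ := hsq
      have h1 : k = (p * t) * p := by rw [ht]; ring
      have ht0 : 0 < t := by
        rcases Nat.eq_zero_or_pos t with h | h
        · subst h; omega
        · exact h
      have hp2 := hp.two_le
      rw [h1]
      refine good_mul hp (Dvd.intro _ rfl) (ih (p * t) ?_ (by nlinarith))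
      rw [h1]
      nlinarith [Nat.mul_pos hp.pos ht0]

/-- `ζ_k`. -/
noncomputable def zeta (k : ℕ) : ℂ := Complex.exp (2 * Real.pi * Complex.I / k)

/-- `A_k`: the integer vectors `(a_0, …, a_{d-1})`, `d = φ(k)`, such that `∑ a_j ζ_k ^ j` is a
`k`-th root of unity. -/
def A (k : ℕ) : Set (Fin (Nat.totient k) → ℤ) :=
  {a | (∑ j, (a j : ℂ) * zeta k ^ (j : ℕ)) ^ k = 1}

/-- `F_k(x) = ∑_{a ∈ A_k} x ^ a`. -/
noncomputable def F (k : ℕ) (x : Fin (Nat.totient k) → ℂ) : ℂ :=
  ∑ᶠ a ∈ A k, ∏ j, x j ^ (a j)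

/-- coefficient vector of `ζ ^ i` -/
noncomputable def cv (k : ℕ) (i : Fin k) : Fin (Nat.totient k) → ℤ :=
  fun j => ((X ^ (i : ℕ) : ℤ[X]) %ₘ cyclotomic k ℤ).coeff j

lemma modByMonic_eq (k : ℕ) (hk : 0 < k) (f : ℤ[X]) :
    f %ₘ cyclotomic k ℤ =
      ∑ j : Fin (Nat.totient k), monomial (j : ℕ) ((f %ₘ cyclotomic k ℤ).coeff j) := by
  have hdeg : (f %ₘ cyclotomic k ℤ).degree < Nat.totient k := by
    have h := degree_modByMonic_lt f (cyclotomic.monic k ℤ)
    rwa [degree_cyclotomic] at h
  conv_lhs => rw [as_sum_range' (f %ₘ cyclotomic k ℤ) (Nat.totient k)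
    (by
      rcases eq_or_ne (f %ₘ cyclotomic k ℤ) 0 with h | h
      · rw [h, natDegree_zero]; exact Nat.totient_pos.2 hk
      · exact (natDegree_lt_iff_degree_lt h).2 hdeg)]
  rw [Finset.sum_range]

lemma zeta_prim (k : ℕ) (hk : 0 < k) : IsPrimitiveRoot (zeta k) k :=
  Complex.isPrimitiveRoot_exp k hk.ne'

lemma eval_cv (k : ℕ) (hk : 0 < k) (i : Fin k) :
    ∑ j, (cv k i j : ℂ) * zeta k ^ (j : ℕ) = zeta k ^ (i : ℕ) := by
  have hz := zeta_prim k hk
  have h0 : aeval (zeta k) (cyclotomic k ℤ) = 0 := by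
    have := hz.isRoot_cyclotomic hk
    rw [IsRoot.def, ← map_cyclotomic_int, eval_map] at this
    rw [aeval_def]
    exact this
  have h1 : aeval (zeta k) ((X ^ (i : ℕ) : ℤ[X]) %ₘ cyclotomic k ℤ) = zeta k ^ (i : ℕ) := by
    have h := congrArg (aeval (zeta k)) (modByMonic_add_div (X ^ (i : ℕ) : ℤ[X]) (cyclotomic k ℤ))
    rw [map_add, map_mul, h0, zero_mul, add_zero, map_pow, aeval_X] at h
    exact h
  rw [← h1, modByMonic_eq k hk, map_sum]
  refine Finset.sum_congr rfl fun j _ => ?_
  rw [aeval_monomial]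
  rfl

lemma lin_indep (k : ℕ) (hk : 0 < k) (a b : Fin (Nat.totient k) → ℤ)
    (h : ∑ j, (a j : ℂ) * zeta k ^ (j : ℕ) = ∑ j, (b j : ℂ) * zeta k ^ (j : ℕ)) : a = b := by
  have hz := zeta_prim k hk
  set f : ℤ[X] := ∑ j : Fin (Nat.totient k), monomial (j : ℕ) (a j - b j) with hf
  have hf0 : aeval (zeta k) f = 0 := by
    rw [hf, map_sum]
    have : ∀ j : Fin (Nat.totient k), aeval (zeta k) (monomial (j : ℕ) (a j - b j)) =
        (a j : ℂ) * zeta k ^ (j : ℕ) - (b j : ℂ) * zeta k ^ (j : ℕ) := by
      intro j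
      rw [aeval_monomial]
      simp
      ring
    rw [Finset.sum_congr rfl (fun j _ => this j), Finset.sum_sub_distrib, h, sub_self]
  have hdeg : f.degree < Nat.totient k := by
    rw [hf]
    refine (degree_sum_le _ _).trans_lt ?_
    rw [Finset.sup_lt_iff (by exact WithBot.bot_lt_coe _)]
    intro j _
    exact (degree_monomial_le _ _).trans_lt (by exact_mod_cast j.2)
  have hdvd : cyclotomic k ℤ ∣ f := by
    rw [cyclotomic_eq_minpoly hz hk]
    exact minpoly.isIntegrallyClosed_dvd (hz.isIntegral hk) hf0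
  have hf1 : f = 0 := by
    by_contra hne
    have := degree_le_of_dvd hdvd hne
    rw [degree_cyclotomic] at this
    exact absurd (this.trans_lt hdeg) (lt_irrefl _)
  ext j
  have h1 : f.coeff j = a j - b j := by
    rw [hf, finsetSum_coeff, Finset.sum_eq_single j]
    · rw [coeff_monomial, if_pos rfl]
    · intro i _ hij
      rw [coeff_monomial, if_neg]
      exact fun h => hij (Fin.ext h)
    · simp
  rw [hf1, coeff_zero] at h1
  linarith

lemma cv_inj (k : ℕ) (hk : 0 < k) : Function.Injective (cv k) := by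
  intro i j h
  have hz := zeta_prim k hk
  have h1 := eval_cv k hk i
  rw [h, eval_cv k hk j] at h1
  exact Fin.ext (hz.pow_inj j.2 i.2 h1).symm

lemma range_cv (k : ℕ) (hk : 0 < k) : Set.range (cv k) = A k := by
  have hz := zeta_prim k hk
  ext a
  constructor
  · rintro ⟨i, rfl⟩
    show (∑ j, (cv k i j : ℂ) * zeta k ^ (j : ℕ)) ^ k = 1
    rw [eval_cv k hk, ← pow_mul, mul_comm, pow_mul, hz.pow_eq_one, one_pow]
  · intro ha
    have ha : (∑ j, (a j : ℂ) * zeta k ^ (j : ℕ)) ^ k = 1 := ha
    have : NeZero k := ⟨hk.ne'⟩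
    obtain ⟨i, hi, h⟩ := hz.eq_pow_of_pow_eq_one ha
    refine ⟨⟨i, hi⟩, lin_indep k hk _ _ ?_⟩
    rw [eval_cv k hk, ← h]

/-- `A_k` has exactly `k` elements (so the sum defining `F_k` is a finite sum of `k` terms). -/
lemma A_ncard (k : ℕ) (hk : 0 < k) : (A k).Finite ∧ (A k).ncard = k := by
  rw [← range_cv k hk]
  refine ⟨Set.finite_range _, ?_⟩
  rw [← Set.image_univ, Set.ncard_image_of_injective _ (cv_inj k hk), Set.ncard_univ,
    Nat.card_eq_fintype_card, Fintype.card_fin]

lemma F_eq (k : ℕ) (hk : 0 < k) (x : Fin (Nat.totient k) → ℂ) :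
    F k x = ∑ i : Fin k, ∏ j, x j ^ (cv k i j) := by
  unfold F
  rw [← range_cv k hk, finsum_mem_range (cv_inj k hk), finsum_eq_sum_of_fintype]

lemma char_sum {N : ℕ} {ι : Type*} (ψ : AddChar (ZMod N) ℂ) (s : Finset ι) (f : ι → ZMod N) :
    ψ (∑ i ∈ s, f i) = ∏ i ∈ s, ψ (f i) := by
  classical
  induction s using Finset.induction with
  | empty => simp
  | insert a s ha ih => rw [Finset.sum_insert ha, Finset.prod_insert ha, AddChar.map_add_eq_mul, ih]

/-- For every `k ≥ 1` the cyclovariety `C_k` meets the unit torus. -/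
theorem result (k : ℕ) (hk : 1 ≤ k) :
    ∃ (x₀ : ℂ) (x : Fin (Nat.totient k) → ℂ),
      ‖x₀‖ = 1 ∧ (∀ j, ‖x j‖ = 1) ∧ x₀ + F k x = 0 := by
  suffices h : ∃ x : Fin (Nat.totient k) → ℂ, (∀ j, ‖x j‖ = 1) ∧ ‖F k x‖ = 1 by
    obtain ⟨x, hx, hF⟩ := h
    exact ⟨-F k x, x, by rw [norm_neg, hF], hx, by ring⟩
  rcases Nat.lt_or_ge 1 k with hk2 | hk2
  · obtain ⟨N, hN, L, hL, hsum⟩ := good_all k hk2
    set y : Fin (Nat.totient k) → ℂ := fun j => ZMod.stdAddChar (L (X ^ (j : ℕ))) with hy
    have hy1 : ∀ j, ‖y j‖ = 1 := by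
      intro j
      rw [hy]
      simp only [ZMod.stdAddChar_apply]
      exact Circle.norm_coe _
    have hFy : F k y = 0 := by
      rw [F_eq k (by omega), ← hsum, Finset.sum_range]
      refine Finset.sum_congr rfl fun i _ => ?_
      have h1 : L (X ^ (i : ℕ)) = L ((X ^ (i : ℕ) : ℤ[X]) %ₘ cyclotomic k ℤ) := by
        conv_lhs => rw [← modByMonic_add_div (X ^ (i : ℕ) : ℤ[X]) (cyclotomic k ℤ)]
        rw [map_add, mul_comm (cyclotomic k ℤ), hL, add_zero]
      rw [h1, modByMonic_eq k (by omega), map_sum, char_sum]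
      refine Finset.prod_congr rfl fun j _ => ?_
      have h2 : (monomial (j : ℕ) (((X ^ (i : ℕ) : ℤ[X]) %ₘ cyclotomic k ℤ).coeff j)) =
          (((X ^ (i : ℕ) : ℤ[X]) %ₘ cyclotomic k ℤ).coeff j) • (X ^ (j : ℕ) : ℤ[X]) := by
        rw [X_pow_eq_monomial (j : ℕ), smul_monomial, smul_eq_mul, mul_one]
      rw [h2, map_zsmul, AddChar.map_zsmul_eq_zpow]
      rfl
    -- the path
    set z : ℝ → Fin (Nat.totient k) → ℂ := fun t j => Complex.exp ((t * (y j).arg : ℝ) * Complex.I)
      with hz
    have hz1 : ∀ t j, ‖z t j‖ = 1 := fun t j => Complex.norm_exp_ofReal_mul_I _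
    have hz0 : ∀ t j, z t j ≠ 0 := fun t j => Complex.exp_ne_zero _
    have hcont : Continuous fun t => ‖F k (z t)‖ := by
      refine Continuous.norm ?_
      simp only [F_eq k (show 0 < k by omega)]
      refine continuous_finsetSum _ fun i _ => continuous_finsetProd _ fun j _ => ?_
      refine Continuous.zpow₀ ?_ _ (fun t => Or.inl (hz0 t j))
      rw [hz]
      fun_prop
    have h0 : ‖F k (z 0)‖ = k := by
      rw [F_eq k (by omega)]
      simp [hz]
    have h1 : ‖F k (z 1)‖ = 0 := by
      have : z 1 = y := by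
        ext j
        rw [hz]
        simp only [one_mul]
        have := Complex.norm_mul_exp_arg_mul_I (y j)
        rw [hy1, Complex.ofReal_one, one_mul] at this
        exact this
      rw [this, hFy, norm_zero]
    have hivt := intermediate_value_Icc' (zero_le_one : (0 : ℝ) ≤ 1) hcont.continuousOn
    simp only [h0, h1] at hivt
    obtain ⟨t, _, ht⟩ := hivt (show (1 : ℝ) ∈ Set.Icc (0 : ℝ) k from
      ⟨zero_le_one, by exact_mod_cast hk⟩)
    exact ⟨z t, hz1 t, ht⟩
  · have h1 : k = 1 := by omega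
    refine ⟨fun _ => 1, by simp, ?_⟩
    rw [F_eq k (by omega)]
    simp [h1]

end Pool.Agent.Results.MP_086516_nt.UnitTorus
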